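import Mathlib
import Pool.Agent.Cyclic.Final

set_option autoImplicit false

namespace Pool.Agent.Results.MP_dca572_nt.CyclicCubes

open Filter Topology

/-- `m` is a cyclic number: `m ≥ 1` and `gcd(m, φ(m)) = 1` -/
def IsCyclicNumber (m : ℕ) : Prop := 0 < m ∧ Nat.gcd m (Nat.totient m) = 1

/-- the increasing enumeration `c 0 < c 1 < c 2 < …` of the cyclic numbers -/
noncomputable def c (j : ℕ) : ℕ := Nat.nth IsCyclicNumber j

/-- the number of pairs of consecutive cyclic numbers with difference `g` lying strictly between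
`n ^ 3` and `(n + 1) ^ 3` -/
noncomputable def T (g n : ℕ) : ℕ :=
  Set.ncard {j : ℕ | n ^ 3 < c j ∧ c (j + 1) < (n + 1) ^ 3 ∧ c (j + 1) = c j + g}

/-- the positive sequence `f` is regularly varying with index `ρ` -/
def RegVar (f : ℕ → ℝ) (ρ : ℝ) : Prop :=
  (∀ n : ℕ, 0 < f n) ∧
    ∀ t : ℝ, 0 < t → Tendsto (fun n : ℕ => f ⌊t * (n : ℝ)⌋₊ / f n) atTop (𝓝 (t ^ ρ))

lemma nu_pat (g l : ℕ) :
    (Pool.Agent.Cyclic.nu (Pool.Agent.Cyclic.Pat g) l : ℝ) = if l ∣ g then 1 else 2 := by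
  unfold Pool.Agent.Cyclic.nu Pool.Agent.Cyclic.Pat
  rw [Finset.image_insert, Finset.image_singleton, Nat.zero_mod]
  split_ifs with h
  · rw [Nat.dvd_iff_mod_eq_zero.1 h]
    simp
  · have h1 : g % l ≠ 0 := fun h2 => h (Nat.dvd_iff_mod_eq_zero.2 h2)
    rw [Finset.card_pair h1.symm]
    norm_num

lemma main_eq (g n : ℕ) : Pool.Agent.Cyclic.mainT g n = (((n : ℝ) + 1) ^ 3 - (n : ℝ) ^ 3) *
    ∏ l ∈ (Finset.range (⌊Real.log (Real.log n)⌋₊ + 1)).filter Nat.Prime,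
      (1 - (if l ∣ g then 1 else 2) / (l : ℝ)) := by
  unfold Pool.Agent.Cyclic.mainT Pool.Agent.Cyclic.HH Pool.Agent.Cyclic.del Pool.Agent.Cyclic.pr
    Pool.Agent.Cyclic.Yc Pool.Agent.Cyclic.Lr
  rw [Finset.prod_congr rfl fun l _ => by rw [nu_pat g l]]
  congr 1
  push_cast
  ring

/-- For `g ∈ {2, 4, 6}` the counts `T g n` are asymptotic to an explicit sequence which is
regularly varying with index `2`. -/
theorem result : ∀ g ∈ ({2, 4, 6} : Finset ℕ), ∃ (f : ℕ → ℝ) (ρ : ℝ),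
    (1 ≤ ρ ∧ ρ ≤ 5 / 2 ∧ RegVar f ρ ∧
      Tendsto (fun n : ℕ => (T g n : ℝ) / f n) atTop (𝓝 1)) ∧
    ρ = 2 ∧
    ∀ n : ℕ, f n = (((n : ℝ) + 1) ^ 3 - (n : ℝ) ^ 3) *
      ∏ l ∈ (Finset.range (⌊Real.log (Real.log n)⌋₊ + 1)).filter Nat.Prime,
        (1 - (if l ∣ g then 1 else 2) / (l : ℝ)) := by
  intro g hg
  have hg' : g = 2 ∨ g = 4 ∨ g = 6 := by
    simpa using hg
  have hg2 : 2 ∣ g := by rcases hg' with rfl | rfl | rfl <;> norm_num
  have hg0 : 0 < g := by rcases hg' with rfl | rfl | rfl <;> norm_num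
  have hg6 : g ≤ 6 := by rcases hg' with rfl | rfl | rfl <;> norm_num
  refine ⟨Pool.Agent.Cyclic.mainT g, 2, ⟨by norm_num, by norm_num, ⟨?_, ?_⟩, ?_⟩, rfl, main_eq g⟩
  · exact fun n => Pool.Agent.Cyclic.mainT_pos g n hg2
  · exact fun t ht => Pool.Agent.Cyclic.mainT_regular g hg2 ht
  · exact Pool.Agent.Cyclic.T_asymp g hg2 hg0 hg6

end Pool.Agent.Results.MP_dca572_nt.CyclicCubes
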